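import Pool.Agent.H896CM.APX
import Pool.Agent.H439CM.BDD
import Pool.Agent.H410R3.CMBMP
import Pool.Agent.H656CM.CLO
import Pool.Agent.H75R6.CM.DET
import Pool.Agent.H208CM.EXP
import Pool.Agent.H690R6.CMFIN
import Pool.Agent.H806CM.GAU
import Pool.Agent.H202CM.MAR
import Pool.Agent.H804CM.PCM
import Pool.Agent.H77CM.PDF
import Pool.Agent.H541CM.POL
import Pool.Agent.H227CM.PTP
import Pool.Agent.H624CM.ROT
import Pool.Agent.H45CM.SYM

set_option autoImplicit false
open MeasureTheory

namespace Pool.Agent.Results.MP_a34d76_pr.SymmetricBodies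

/-- Let `C ⊂ ℝ^d` be a convex set of positive finite volume which is centrally symmetric about some
point `c` (`x ∈ C → 2c - x ∈ C`). Then for every `n ≥ 2` there are `n` random vectors, each uniform
on `C`, whose sum is almost surely constant: the uniform distribution on every centrally symmetric
convex body is `n`-completely mixable for every `n ≥ 2`. -/
theorem result :
    ∀ (d : ℕ) (C : Set (Fin d → ℝ)),
      Convex ℝ C → 0 < volume C → volume C < ⊤ →
      (∃ c : Fin d → ℝ, ∀ x ∈ C, (2 : ℝ) • c - x ∈ C) →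
      ∀ n : ℕ, 2 ≤ n →
        ∃ P : Measure (Fin n → (Fin d → ℝ)),
          IsProbabilityMeasure P ∧
          (∀ i : Fin n,
            P.map (fun x : Fin n → (Fin d → ℝ) => x i)
              = (volume C)⁻¹ • volume.restrict C) ∧
          ∃ c : Fin d → ℝ, ∀ᵐ x ∂P, (∑ i, x i) = c := by
  open Pool.Agent.H381CM in
  have hexp : S_EXP := T_EXP T_DET
  have hmar : S_MAR := T_MAR hexp Pool.Agent.H806CM.T_GAU T_PDF
  have hpcm : S_PCM := T_PCM hmar T_ROT
  have hpol : S_POL := T_POL hpcm Pool.Agent.H410CM.T_BMP T_CLO T_PTP Pool.Agent.H806CM.T_GAU T_PDF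
  have hsym : S_SYM := T_SYM hpol T_CLO T_APX
  exact T_FIN hsym T_BDD

end Pool.Agent.Results.MP_a34d76_pr.SymmetricBodies
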